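import Pool.Agent.Lib.SMG.Spin
import Pool.Agent.Lib.ANA.Chart

/-! Gauge covariance on a spin manifold. -/

noncomputable section

open Set Filter Topology CliffordAlgebra
open scoped Manifold ContDiff RealInnerProductSpace

set_option linter.unusedSectionVars false

namespace Pool.Agent.Lib.SMG

open CX ANA ANA.Fm

variable {n N : ℕ}

theorem isON (n : ℕ) : IsON (Qn n) (bv : Fin n → Eu n) where
  sq i := by
    have : Qn n (bv i) = -1 := by simp [Qn, bv]
    rw [ι_sq_scalar, this, map_neg, map_one]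
  anti i j h := by
    have : QuadraticMap.polar (Qn n) (bv i) (bv j) = 0 := by
      simp [QuadraticMap.polar, Qn, bv, inner_add_right, EuclideanSpace.inner_single_left, h, h.symm]
    rw [eq_neg_iff_add_eq_zero, ι_mul_ι_add_swap, this, map_zero]
  span v := ⟨v, (sum_bv v).symm⟩

instance finiteCl (n : ℕ) : Module.Finite ℝ (CX.Cl n) := (isON n).finite

/-- A weakly smooth map into the Clifford algebra is smooth in every linear representation. -/
theorem smooth_lin {E H Z : Type*} [NormedAddCommGroup E] [NormedSpace ℝ E] [TopologicalSpace H]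
    {I : ModelWithCorners ℝ E H} [TopologicalSpace Z] [ChartedSpace H Z] {s : Z → CX.Cl n}
    {O : Set Z} {z : Z} {m : ℕ∞ω}
    (h : ∀ l : CX.Cl n →ₗ[ℝ] ℝ, ContMDiffWithinAt I 𝓘(ℝ, ℝ) m (fun z => l (s z)) O z)
    {W : Type*} [NormedAddCommGroup W] [NormedSpace ℝ W] (L : CX.Cl n →ₗ[ℝ] W) :
    ContMDiffWithinAt I 𝓘(ℝ, W) m (fun z => L (s z)) O z := by
  let β := Module.finBasis ℝ (CX.Cl n)
  have e : ∀ z : CX.Cl n, L z = ∑ m, β.coord m z • L (β m) := by
    intro z
    conv_lhs => rw [← β.sum_repr z, map_sum]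
    simp
  simp only [fun y => e (s y)]
  exact contMDiffWithinAt_finsetSum fun m _ => (h (β.coord m)).smul contMDiffWithinAt_const

theorem smc_lin {E H Z : Type} [NormedAddCommGroup E] [NormedSpace ℝ E] [TopologicalSpace H]
    {I : ModelWithCorners ℝ E H} [TopologicalSpace Z] [ChartedSpace H Z] {s : Z → CX.Cl n}
    {O : Set Z} (h : SmC I s O) {W : Type*} [NormedAddCommGroup W] [NormedSpace ℝ W]
    (L : CX.Cl n →ₗ[ℝ] W) : ContMDiffOn I 𝓘(ℝ, W) ∞ (fun z => L (s z)) O :=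
  fun z hz => smooth_lin (fun l => h l z hz) L

/-- `star` is the adjoint. -/
theorem inner_c (S : Spinor n N) (a : CX.Cl n) (u w : Eu N) :
    ⟪S.c a u, w⟫ = ⟪u, S.c (star a) w⟫ := by
  induction a using CliffordAlgebra.induction generalizing u w with
  | algebraMap r => simp [Algebra.algebraMap_eq_smul_one, inner_smul_left, inner_smul_right]
  | ι v => rw [S.skew, star_ι, map_neg]; simp
  | mul a b ha hb => rw [star_mul, map_mul, map_mul, mul_apply_eq_comp, ha, hb, mul_apply_eq_comp]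
  | add a b ha hb => simp [inner_add_left, inner_add_right, ha, hb]

theorem inner_spin (S : Spinor n N) {s : CX.Cl n} (hs : s ∈ spinGroup (Qn n)) (u w : Eu N) :
    ⟪S.c s u, S.c s w⟫ = ⟪u, w⟫ := by
  rw [inner_c, ← mul_apply_eq_comp, ← map_mul, spinGroup.star_mul_self_of_mem hs, map_one]
  rfl

theorem norm_spin (S : Spinor n N) {s : CX.Cl n} (hs : s ∈ spinGroup (Qn n)) (u : Eu N) :
    ‖S.c s u‖ = ‖u‖ := by
  rw [← sq_eq_sq₀ (norm_nonneg _) (norm_nonneg _), ← real_inner_self_eq_norm_sq,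
    ← real_inner_self_eq_norm_sq, inner_spin S hs]

/-- An element that anticommutes with the generators commutes with the even part. -/
theorem comm_even {A : Type*} [Ring A] [Algebra ℝ A] (c : CX.Cl n →ₐ[ℝ] A) {w : A}
    (hw : ∀ i, w * c (ι (Qn n) (bv i)) = -(c (ι (Qn n) (bv i)) * w)) (a : CX.Cl n) :
    w * c a = c (involute a) * w := by
  induction a using CliffordAlgebra.induction with
  | algebraMap r => simp [Algebra.algebraMap_eq_smul_one]
  | ι v =>
    rw [involute_ι, ← sum_bv v]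
    simp [Finset.mul_sum, Finset.sum_mul, hw]
  | mul a b ha hb => rw [map_mul, ← mul_assoc, ha, mul_assoc, hb, map_mul, map_mul, mul_assoc]
  | add a b ha hb => simp [mul_add, add_mul, ha, hb]

theorem comm_spin {A : Type*} [Ring A] [Algebra ℝ A] (c : CX.Cl n →ₐ[ℝ] A) {w : A}
    (hw : ∀ i, w * c (ι (Qn n) (bv i)) = -(c (ι (Qn n) (bv i)) * w)) {s : CX.Cl n}
    (hs : s ∈ spinGroup (Qn n)) : w * c s = c s * w := by
  rw [comm_even c hw, spinGroup.involute_eq hs]

section SM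

variable (X : SM n) {a b : ℕ} {x : X.M}

theorem s_mem (ha : x ∈ X.U a) (hb : x ∈ X.U b) : X.s a b x ∈ spinGroup (Qn n) :=
  (X.spin a b x ⟨ha, hb⟩).1

theorem s_self (ha : x ∈ X.U a) : X.s a a x = 1 := by
  have h1 := X.cocycle a a a x ⟨⟨ha, ha⟩, ha⟩
  have h2 := spinGroup.star_mul_self_of_mem (s_mem X ha ha)
  rw [← h2]
  nth_rewrite 3 [← h1]
  rw [← mul_assoc, h2, one_mul]

theorem s_inv (ha : x ∈ X.U a) (hb : x ∈ X.U b) : X.s a b x * X.s b a x = 1 := by
  rw [X.cocycle a b a x ⟨⟨ha, hb⟩, ha⟩, s_self X ha]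

theorem s_star (ha : x ∈ X.U a) (hb : x ∈ X.U b) : star (X.s a b x) = X.s b a x := by
  rw [← mul_one (star _), ← s_inv X ha hb, ← mul_assoc,
    spinGroup.star_mul_self_of_mem (s_mem X ha hb), one_mul]

theorem s_smooth (ha : x ∈ X.U a) (hb : x ∈ X.U b) {W : Type*} [NormedAddCommGroup W]
    [NormedSpace ℝ W] (L : CX.Cl n →ₗ[ℝ] W) :
    ContMDiffAt (𝓡 n) 𝓘(ℝ, W) ∞ (fun y => L (X.s a b y)) x :=
  (smc_lin (X.smc a b) L).contMDiffAt (((X.isOpen a).inter (X.isOpen b)).mem_nhds ⟨ha, hb⟩)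

theorem cs_smooth (S : Spinor n N) (ha : x ∈ X.U a) (hb : x ∈ X.U b) :
    ContMDiffAt (𝓡 n) 𝓘(ℝ, Eu N →L[ℝ] Eu N) ∞ (fun y => S.c (X.s a b y)) x :=
  s_smooth X ha hb S.c.toLinearMap

end SM

section Frames

variable {M : Type} [TopologicalSpace M] [ChartedSpace (Eu n) M] [IsManifold (𝓡 n) ∞ M]
  {F F' : Fm n M} {U U' : Set M} {x : M}

/-- The matrix of the frame `F'` in the frame `F`. -/
def rot (F F' : Fm n M) (m k : Fin n) (y : M) : ℝ := (F y).symm (F' y (bv k)) m

theorem e_rot (F F' : Fm n M) (k : Fin n) (y : M) : F'.e k y = ∑ m, rot F F' m k y • F.e m y := by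
  simp only [Fm.e, rot, ← map_smul, ← map_sum, sum_bv, ContinuousLinearEquiv.apply_symm_apply]

theorem dd_rot (F F' : Fm n M) {T : Type} [NormedAddCommGroup T] [NormedSpace ℝ T] (k : Fin n)
    (u : M → T) (y : M) : F'.dd k u y = ∑ m, rot F F' m k y • F.dd m u y := by
  simp only [Fm.dd, e_rot F F', map_sum, map_smul]
  rfl

theorem pe_rot (F F' : Fm n M) {E : Type} [NormedAddCommGroup E] [NormedSpace ℝ E] (ψ : E → M)
    (k : Fin n) (z : E) : F'.pe ψ k z = ∑ m, rot F F' m k (ψ z) • F.pe ψ m z := by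
  have := congrArg (mfderiv 𝓘(ℝ, E) (𝓡 n) ψ z).inverse (e_rot F F' k (ψ z))
  rw [map_sum] at this
  simp only [map_smul] at this
  exact this

theorem rot_smooth (h : F.Sm U) (h' : F'.Sm U') (hx : x ∈ U) (hx' : x ∈ U') (m k : Fin n) :
    ContMDiffAt (𝓡 n) 𝓘(ℝ, ℝ) ∞ (rot F F' m k) x := by
  have p := h.par x
  have p' := h'.par x
  have hz := mem_par (n := n) (mem_chart_source _ x) hx
  have hz' := mem_par (n := n) (mem_chart_source _ x) hx'
  have h1 := (p.pm_inv hz).contDiffAt_map_inverse.comp _ (p.pm_smooth hz)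
  refine (smooth_self le_rfl).2 (((EuclideanSpace.proj m : Eu n →L[ℝ] ℝ).contDiff.contDiffAt.comp _
    (h1.clm_apply (p'.pe_smooth hz' k))).congr_of_eventuallyEq ?_)
  filter_upwards [p.op.mem_nhds hz] with z hz
  have : F'.pe (ci x) k z = F.pm (ci x) z ((F (ci x z)).symm (F' (ci x z) (bv k))) :=
    congrArg (mfderiv (𝓡 n) (𝓡 n) (ci x) z).inverse ((F (ci x z)).apply_symm_apply _).symm
  simp only [Function.comp_apply, this, (p.pm_inv hz).inverse_apply_self]
  rfl

theorem tendsto_ci (x : M) : Tendsto (ci x : Eu n → M) (𝓝 (chartAt (Eu n) x x)) (𝓝 x) := by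
  have := (ci_smooth (mem_chart_target (Eu n) x)).continuousAt.tendsto
  rwa [ci_self] at this

theorem rot_flat (h : F.Sm U) (h' : F'.Sm U') (hx : x ∈ U) (hx' : x ∈ U')
    (ho : ∀ᶠ y in 𝓝 x, ∀ k l, ∑ m, rot F F' m k y * rot F F' m l y = if k = l then 1 else 0) :
    Rot (F.pe (ci x)) (F'.pe (ci x)) (fun m k z => rot F F' m k (ci x z)) (chartAt (Eu n) x x) where
  sm m k := ((smooth_self le_rfl).1 (rot_smooth h h' hx hx' m k)).of_le (by norm_cast)
  eq := .of_forall fun z k => pe_rot F F' _ k z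
  orth := (tendsto_ci x).eventually ho

/-- The scalar curvature does not depend on the orthonormal frame. -/
theorem scal_rot (h : F.Sm U) (h' : F'.Sm U') (hx : x ∈ U) (hx' : x ∈ U')
    (ho : ∀ᶠ y in 𝓝 x, ∀ k l, ∑ m, rot F F' m k y * rot F F' m l y = if k = l then 1 else 0) :
    F'.scal x = F.scal x := by
  have := (rot_flat h h' hx hx' ho).scal (h.fa hx) (h'.fa hx')
  rwa [← scal_ci F (mem_chart_target _ x), ← scal_ci F' (mem_chart_target _ x), ci_self] at this

theorem covers_rot {s : CX.Cl n} {y : M} (h : Covers s id fun v => (F y).symm (F' y v))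
    (k : Fin n) : ι (Qn n) (∑ m, rot F F' m k y • bv m) * s = s * ι (Qn n) (bv k) := by
  simpa only [rot, sum_bv, id] using h.2 (bv k)

theorem orth_rot {s : CX.Cl n} {y : M} (h : Covers s id fun v => (F y).symm (F' y v))
    (k l : Fin n) : ∑ m, rot F F' m k y * rot F F' m l y = if k = l then 1 else 0 :=
  (isON n).orth h.1 (covers_rot h) k l

theorem orth_rot' {s : CX.Cl n} {y : M} (h : Covers s id fun v => (F y).symm (F' y v))
    (k l : Fin n) : ∑ m, rot F F' k m y * rot F F' l m y = if k = l then 1 else 0 :=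
  orth_comm (M := fun m k => rot F F' m k y) (orth_rot h) k l

/-- The inner product of gradients does not depend on the orthonormal frame. -/
theorem grad_rot {s : CX.Cl n} {y : M} (h : Covers s id fun v => (F y).symm (F' y v))
    (f g : M → ℝ) : ∑ k, F'.dd k f y * F'.dd k g y = ∑ k, F.dd k f y * F.dd k g y := by
  have : ∑ k, F'.dd k f y * F'.dd k g y =
      ∑ m, ∑ p, (∑ k, rot F F' m k y * rot F F' p k y) * (F.dd m f y * F.dd p g y) := by
    simp only [dd_rot F F', smul_eq_mul, Finset.sum_mul_sum]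
    simp only [Finset.sum_mul]
    rw [Finset.sum_comm]
    refine Finset.sum_congr rfl fun m _ => ?_
    rw [Finset.sum_comm]
    exact Finset.sum_congr rfl fun _ _ => Finset.sum_congr rfl fun _ _ => by ring
  rw [this]
  simp [orth_rot' h]

variable {S : Type} [NormedAddCommGroup S] [InnerProductSpace ℝ S] {s : M → CX.Cl n}
  (c : CX.Cl n →ₐ[ℝ] S →L[ℝ] S)

theorem conj_rot {s : CX.Cl n} {y : M} (h : Covers s id fun v => (F y).symm (F' y v)) (k : Fin n) :
    c s * c (ι (Qn n) (bv k)) = (∑ m, rot F F' m k y • c (ι (Qn n) (bv m))) * c s := by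
  rw [← map_mul, ← covers_rot h, map_mul]
  simp

/-- Clifford multiplication by a gradient is gauge covariant. -/
theorem cgrad_rot {s : CX.Cl n} {y : M} (h : Covers s id fun v => (F y).symm (F' y v)) (f : M → ℝ) :
    c s * ∑ k, F'.dd k f y • c (ι (Qn n) (bv k)) =
      (∑ k, F.dd k f y • c (ι (Qn n) (bv k))) * c s := by
  simp only [Finset.mul_sum, mul_smul_comm, conj_rot c h, dd_rot F F', smul_eq_mul, Finset.sum_mul,
    smul_mul_assoc, Finset.smul_sum, smul_smul]
  rw [Finset.sum_comm]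
  refine Finset.sum_congr rfl fun m _ => ?_
  rw [← Finset.sum_smul, Finset.sum_comm]
  simp only [mul_right_comm _ (F.dd _ f y), ← Finset.sum_mul, orth_rot' h]
  simp

theorem lift_flat (h : F.Sm U) (h' : F'.Sm U') (hx : x ∈ U) (hx' : x ∈ U')
    (hc : ∀ᶠ y in 𝓝 x, Covers (s y) id fun v => (F y).symm (F' y v))
    (hs : ∀ l : CX.Cl n →ₗ[ℝ] ℝ, MDifferentiableAt (𝓡 n) 𝓘(ℝ, ℝ) (fun y => l (s y)) x) :
    Lift (F.dat (fun i => c (ι (Qn n) (bv i))) (ci x)) (F'.dat (fun i => c (ι (Qn n) (bv i))) (ci x))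
      (fun m k z => rot F F' m k (ci x z)) (fun z => c (s (ci x z))) (chartAt (Eu n) x x) := by
  have r := rot_flat h h' hx hx' (hc.mono fun y hy => orth_rot hy)
  have hc' := (tendsto_ci (n := n) x).eventually hc
  have := (isON n).spin_deriv (s := fun z => s (ci x z)) (hc'.mono fun z hz => hz.1)
    (fun l => mdiff_self.1 (hs l)) r.d (hc'.mono fun z hz => covers_rot hz) c
  exact ⟨rfl, rfl, r, this.1, conj_rot c hc'.self_of_nhds, this.2⟩

/-- Gauge covariance of the spin connection. -/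
theorem nab_rot (h : F.Sm U) (h' : F'.Sm U') (hx : x ∈ U) (hx' : x ∈ U')
    (hc : ∀ᶠ y in 𝓝 x, Covers (s y) id fun v => (F y).symm (F' y v))
    (hs : ∀ l : CX.Cl n →ₗ[ℝ] ℝ, MDifferentiableAt (𝓡 n) 𝓘(ℝ, ℝ) (fun y => l (s y)) x)
    {u : M → S} (hu : MDifferentiableAt (𝓡 n) 𝓘(ℝ, S) u x) (j : Fin n) :
    c (s x) (F'.nab (fun i => c (ι (Qn n) (bv i))) j u x) =
      ∑ i, rot F F' i j x • F.nab (fun i => c (ι (Qn n) (bv i))) i (fun y => c (s y) (u y)) x := by
  have := (lift_flat c h h' hx hx' hc hs).nab (h.fa hx) (h'.fa hx') (mdiff_self.1 hu) j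
  simp only [← nab_ci F' (mem_chart_target _ x),
    ← nab_ci F (mem_chart_target _ x) _ (fun y => c (s y) (u y)), ci_self] at this
  exact this

/-- Gauge covariance of the Dirac operator. -/
theorem dir_rot (h : F.Sm U) (h' : F'.Sm U') (hx : x ∈ U) (hx' : x ∈ U')
    (hc : ∀ᶠ y in 𝓝 x, Covers (s y) id fun v => (F y).symm (F' y v))
    (hs : ∀ l : CX.Cl n →ₗ[ℝ] ℝ, MDifferentiableAt (𝓡 n) 𝓘(ℝ, ℝ) (fun y => l (s y)) x)
    {u : M → S} (hu : MDifferentiableAt (𝓡 n) 𝓘(ℝ, S) u x) :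
    F.dir (fun i => c (ι (Qn n) (bv i))) (fun y => c (s y) (u y)) x =
      c (s x) (F'.dir (fun i => c (ι (Qn n) (bv i))) u x) := by
  have := (lift_flat c h h' hx hx' hc hs).dir (h.fa hx) (h'.fa hx') (mdiff_self.1 hu)
  simp only [← dir_ci F' (mem_chart_target _ x),
    ← dir_ci F (mem_chart_target _ x) (fun y => c (s y) (u y)), ci_self] at this
  exact this

end Frames

section SM

variable (X : SM n) (S : Spinor n N) {a b : ℕ} {x : X.M}

theorem covers_ev (ha : x ∈ X.U a) (hb : x ∈ X.U b) :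
    ∀ᶠ y in 𝓝 x, Covers (X.s a b y) id fun v => (X.F a y).symm (X.F b y v) := by
  filter_upwards [((X.isOpen a).inter (X.isOpen b)).mem_nhds ⟨ha, hb⟩] with y hy
    using X.spin a b y hy

/-- The scalar curvature can be computed in every frame. -/
theorem scal_gauge (ha : x ∈ X.U a) : Fm.scal (X.F a) x = X.scal x :=
  scal_rot (sm X _) (sm X a) (mem_fr X x) ha
    ((covers_ev X (mem_fr X x) ha).mono fun _ hy => orth_rot hy)

theorem scal_smooth : ContMDiff (𝓡 n) 𝓘(ℝ, ℝ) ∞ X.scal := fun x => by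
  refine ((sm X _).scal_smooth (mem_fr X x)).congr_of_eventuallyEq ?_
  filter_upwards [(X.isOpen _).mem_nhds (mem_fr X x)] with y hy using (scal_gauge X hy).symm

theorem grad_gauge (ha : x ∈ X.U a) (hb : x ∈ X.U b) (f g : X.M → ℝ) :
    ∑ k, X.dd b k f x * X.dd b k g x = ∑ k, X.dd a k f x * X.dd a k g x :=
  grad_rot (X.spin a b x ⟨ha, hb⟩) f g

theorem cgrad_gauge (ha : x ∈ X.U a) (hb : x ∈ X.U b) (f : X.M → ℝ) :
    S.c (X.s a b x) * ∑ k, X.dd b k f x • gam S k = (∑ k, X.dd a k f x • gam S k) * S.c (X.s a b x) :=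
  cgrad_rot S.c (X.spin a b x ⟨ha, hb⟩) f

theorem nab_gauge (ha : x ∈ X.U a) (hb : x ∈ X.U b) {u : X.M → Eu N}
    (hu : MDifferentiableAt (𝓡 n) 𝓘(ℝ, Eu N) u x) (j : Fin n) :
    S.c (X.s a b x) (Fm.nab (X.F b) (gam S) j u x) = ∑ i, rot (X.F a) (X.F b) i j x •
      Fm.nab (X.F a) (gam S) i (fun y => S.c (X.s a b y) (u y)) x :=
  nab_rot S.c (sm X a) (sm X b) ha hb (covers_ev X ha hb)
    (fun l => (s_smooth X ha hb l).mdifferentiableAt (by simp)) hu j

/-- Gauge covariance of the Dirac operator of a spin manifold. -/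
theorem dirac_gauge (ha : x ∈ X.U a) (hb : x ∈ X.U b) {u : X.M → Eu N}
    (hu : MDifferentiableAt (𝓡 n) 𝓘(ℝ, Eu N) u x) :
    X.dirac S a (fun y => S.c (X.s a b y) (u y)) x = S.c (X.s a b x) (X.dirac S b u x) := by
  rw [dirac_eq, dirac_eq]
  exact dir_rot S.c (sm X a) (sm X b) ha hb (covers_ev X ha hb)
    (fun l => (s_smooth X ha hb l).mdifferentiableAt (by simp)) hu

end SM

end Pool.Agent.Lib.SMG
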