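import Mathlib

/-! Even elements of a Clifford algebra: averaging over the generators. -/

noncomputable section

open CliffordAlgebra

namespace Pool.Agent.Lib.SMG

section Alg

variable {A : Type*} [Ring A] [Algebra ℝ A] {κ : Type*}

/-- Even and odd parts of the subalgebra generated by the `e i`, `i` in a list. -/
def EO (e : κ → A) : List κ → Submodule ℝ A × Submodule ℝ A
  | [] => (Submodule.span ℝ {1}, ⊥)
  | i :: l => ((EO e l).1 ⊔ (EO e l).2.map (LinearMap.mulLeft ℝ (e i)),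
      (EO e l).2 ⊔ (EO e l).1.map (LinearMap.mulLeft ℝ (e i)))

/-- The averaging operator: composition of the maps `x ↦ x - f i * x * e i`. -/
def avg (f e : κ → A) : List κ → A →ₗ[ℝ] A
  | [] => LinearMap.id
  | i :: l => avg f e l ∘ₗ (LinearMap.id - LinearMap.mulLeft ℝ (f i) ∘ₗ LinearMap.mulRight ℝ (e i))

variable {e f : κ → A}

theorem avg_cons (i : κ) (l : List κ) (x : A) :
    avg f e (i :: l) x = avg f e l (x - f i * x * e i) := by
  simp [avg, mul_assoc]

theorem mem_ev {i : κ} {l : List κ} {x : A} :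
    x ∈ (EO e (i :: l)).1 ↔ ∃ a ∈ (EO e l).1, ∃ b ∈ (EO e l).2, x = a + e i * b := by
  simp only [EO, Submodule.mem_sup, Submodule.mem_map, LinearMap.mulLeft_apply]
  constructor
  · rintro ⟨a, ha, _, ⟨b, hb, rfl⟩, rfl⟩
    exact ⟨a, ha, b, hb, rfl⟩
  · rintro ⟨a, ha, b, hb, rfl⟩
    exact ⟨a, ha, _, ⟨b, hb, rfl⟩, rfl⟩

theorem mem_od {i : κ} {l : List κ} {x : A} :
    x ∈ (EO e (i :: l)).2 ↔ ∃ b ∈ (EO e l).2, ∃ a ∈ (EO e l).1, x = b + e i * a := by
  simp only [EO, Submodule.mem_sup, Submodule.mem_map, LinearMap.mulLeft_apply]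
  constructor
  · rintro ⟨a, ha, _, ⟨b, hb, rfl⟩, rfl⟩
    exact ⟨a, ha, b, hb, rfl⟩
  · rintro ⟨a, ha, b, hb, rfl⟩
    exact ⟨a, ha, _, ⟨b, hb, rfl⟩, rfl⟩

theorem one_mem_ev (l : List κ) : (1 : A) ∈ (EO e l).1 := by
  induction l with
  | nil => exact Submodule.subset_span rfl
  | cons i l ih => exact mem_ev.2 ⟨1, ih, 0, Submodule.zero_mem _, by simp⟩

theorem comm_of_not_mem (h2 : ∀ i j, i ≠ j → e i * e j = -(e j * e i)) {j : κ} (l : List κ)
    (hj : j ∉ l) : (∀ a ∈ (EO e l).1, e j * a = a * e j) ∧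
      ∀ b ∈ (EO e l).2, e j * b = -(b * e j) := by
  induction l with
  | nil =>
    refine ⟨fun a ha => ?_, fun b hb => ?_⟩
    · obtain ⟨r, rfl⟩ := Submodule.mem_span_singleton.1 ha
      simp
    · have : b = 0 := by simpa [EO] using hb
      simp [this]
  | cons i l ih =>
    have hji : j ≠ i := fun h => hj (h ▸ List.mem_cons_self)
    obtain ⟨h1, h3⟩ := ih fun h => hj (List.mem_cons_of_mem _ h)
    refine ⟨fun x hx => ?_, fun x hx => ?_⟩
    · obtain ⟨a, ha, b, hb, rfl⟩ := mem_ev.1 hx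
      rw [mul_add, add_mul, h1 a ha, ← mul_assoc, h2 j i hji, neg_mul, mul_assoc, h3 b hb]
      simp [mul_assoc]
    · obtain ⟨b, hb, a, ha, rfl⟩ := mem_od.1 hx
      rw [mul_add, add_mul, h3 b hb, ← mul_assoc, h2 j i hji, neg_mul, mul_assoc, h1 a ha]
      simp [mul_assoc, add_comm]

theorem mul_mem_eo (h1 : ∀ i, e i * e i = -1) (h2 : ∀ i j, i ≠ j → e i * e j = -(e j * e i))
    {j : κ} (l : List κ) (hj : j ∈ l) : (∀ a ∈ (EO e l).1, e j * a ∈ (EO e l).2) ∧
      ∀ b ∈ (EO e l).2, e j * b ∈ (EO e l).1 := by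
  induction l with
  | nil => simp at hj
  | cons i l ih =>
    by_cases hji : j = i
    · subst hji
      refine ⟨fun x hx => ?_, fun x hx => ?_⟩
      · obtain ⟨a, ha, b, hb, rfl⟩ := mem_ev.1 hx
        refine mem_od.2 ⟨-b, Submodule.neg_mem _ hb, a, ha, ?_⟩
        rw [mul_add, ← mul_assoc, h1]; simp [add_comm]
      · obtain ⟨b, hb, a, ha, rfl⟩ := mem_od.1 hx
        refine mem_ev.2 ⟨-a, Submodule.neg_mem _ ha, b, hb, ?_⟩
        rw [mul_add, ← mul_assoc, h1]; simp [add_comm]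
    · obtain ⟨i1, i2⟩ := ih ((List.mem_cons.1 hj).resolve_left hji)
      refine ⟨fun x hx => ?_, fun x hx => ?_⟩
      · obtain ⟨a, ha, b, hb, rfl⟩ := mem_ev.1 hx
        refine mem_od.2 ⟨_, i1 a ha, _, Submodule.neg_mem _ (i2 b hb), ?_⟩
        rw [mul_add, ← mul_assoc, h2 j i hji]; simp [mul_assoc]
      · obtain ⟨b, hb, a, ha, rfl⟩ := mem_od.1 hx
        refine mem_ev.2 ⟨_, i2 b hb, _, Submodule.neg_mem _ (i1 a ha), ?_⟩
        rw [mul_add, ← mul_assoc, h2 j i hji]; simp [mul_assoc]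

theorem map_eo (σ : A →ₐ[ℝ] A) (hσ : ∀ i, σ (e i) = -e i) (l : List κ) :
    (∀ a ∈ (EO e l).1, σ a = a) ∧ ∀ b ∈ (EO e l).2, σ b = -b := by
  induction l with
  | nil =>
    refine ⟨fun a ha => ?_, fun b hb => ?_⟩
    · obtain ⟨r, rfl⟩ := Submodule.mem_span_singleton.1 ha
      simp
    · have : b = 0 := by simpa [EO] using hb
      simp [this]
  | cons i l ih =>
    refine ⟨fun x hx => ?_, fun x hx => ?_⟩
    · obtain ⟨a, ha, b, hb, rfl⟩ := mem_ev.1 hx
      simp [hσ, ih.1 a ha, ih.2 b hb]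
    · obtain ⟨b, hb, a, ha, rfl⟩ := mem_od.1 hx
      simp [hσ, ih.1 a ha, ih.2 b hb, add_comm]

theorem fg_eo (l : List κ) : (EO e l).1.FG ∧ (EO e l).2.FG := by
  induction l with
  | nil => exact ⟨Submodule.fg_span_singleton _, Submodule.fg_bot⟩
  | cons i l ih => exact ⟨ih.1.sup (ih.2.map _), ih.2.sup (ih.1.map _)⟩

theorem avg_ev (h1 : ∀ i, e i * e i = -1) (h2 : ∀ i j, i ≠ j → e i * e j = -(e j * e i))
    (l : List κ) (hl : l.Nodup) (x : A) (hx : x ∈ (EO e l).1) :
    ∃ r : ℝ, avg e e l x = r • (1 : A) := by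
  induction l generalizing x with
  | nil =>
    obtain ⟨r, rfl⟩ := Submodule.mem_span_singleton.1 hx
    exact ⟨r, rfl⟩
  | cons i l ih =>
    obtain ⟨hi, hl'⟩ := List.nodup_cons.1 hl
    obtain ⟨a, ha, b, hb, rfl⟩ := mem_ev.1 hx
    obtain ⟨c1, c2⟩ := comm_of_not_mem h2 l hi
    rw [avg_cons]
    refine ih hl' _ ?_
    have : a + e i * b - e i * (a + e i * b) * e i = a + a := by
      rw [mul_add, add_mul, ← mul_assoc (e i) (e i), h1, c1 a ha, mul_assoc a, h1, c2 b hb]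
      simp
    rw [this]
    exact Submodule.add_mem _ ha ha

theorem avg_comm (h1 : ∀ i, e i * e i = -1) (l : List κ) (x : A) (hx : ∀ i, e i * x = x * e i) :
    avg e e l x = (2 : ℝ) ^ l.length • x := by
  induction l with
  | nil => simp [avg]
  | cons i l ih =>
    have : x - e i * x * e i = (2 : ℝ) • x := by
      rw [hx, mul_assoc, h1, two_smul]; simp
    rw [avg_cons, this, map_smul, ih, smul_smul, List.length_cons, pow_succ']

theorem avg_mul {s : A} (hs : ∀ i, f i * s = s * e i) (l : List κ) (x : A) :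
    avg f e l (s * x) = s * avg e e l x := by
  induction l generalizing x with
  | nil => simp [avg]
  | cons i l ih =>
    rw [avg_cons, avg_cons, ← ih]
    congr 1
    rw [← mul_assoc, hs, mul_sub]
    simp [mul_assoc]

end Alg

section Cliff

variable {V : Type*} [AddCommGroup V] [Module ℝ V] {Q : QuadraticForm ℝ V} {κ : Type*}
  [Fintype κ] {b : κ → V}

/-- `b` is a spanning family with `b_i² = -1`, `b_i b_j = - b_j b_i`. -/
structure IsON (Q : QuadraticForm ℝ V) (b : κ → V) : Prop where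
  sq : ∀ i, ι Q (b i) * ι Q (b i) = -1
  anti : ∀ i j, i ≠ j → ι Q (b i) * ι Q (b j) = -(ι Q (b j) * ι Q (b i))
  span : ∀ v, ∃ r : κ → ℝ, v = ∑ i, r i • b i

theorem IsON.split (h : IsON Q b) (x : CliffordAlgebra Q) :
    ∃ a ∈ (EO (fun i => ι Q (b i)) Finset.univ.toList).1,
      ∃ c ∈ (EO (fun i => ι Q (b i)) Finset.univ.toList).2, x = a + c := by
  induction x using CliffordAlgebra.left_induction with
  | algebraMap r =>
    refine ⟨_, Submodule.smul_mem _ r (one_mem_ev _), 0, Submodule.zero_mem _, ?_⟩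
    simp [Algebra.algebraMap_eq_smul_one]
  | add x y hx hy =>
    obtain ⟨a, ha, c, hc, rfl⟩ := hx
    obtain ⟨a', ha', c', hc', rfl⟩ := hy
    exact ⟨_, Submodule.add_mem _ ha ha', _, Submodule.add_mem _ hc hc', by abel⟩
  | ι_mul x v hx =>
    obtain ⟨a, ha, c, hc, rfl⟩ := hx
    obtain ⟨r, rfl⟩ := h.span v
    have m := fun i => mul_mem_eo h.sq h.anti Finset.univ.toList
      (Finset.mem_toList.2 (Finset.mem_univ i))
    refine ⟨∑ i, r i • (ι Q (b i) * c), Submodule.sum_mem _ fun i _ =>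
      Submodule.smul_mem _ _ ((m i).2 c hc), ∑ i, r i • (ι Q (b i) * a),
      Submodule.sum_mem _ fun i _ => Submodule.smul_mem _ _ ((m i).1 a ha), ?_⟩
    simp [Finset.sum_mul, mul_add, add_comm]

theorem IsON.finite (h : IsON Q b) : Module.Finite ℝ (CliffordAlgebra Q) := by
  refine ⟨?_⟩
  have : (⊤ : Submodule ℝ (CliffordAlgebra Q)) = (EO (fun i => ι Q (b i)) Finset.univ.toList).1 ⊔
      (EO (fun i => ι Q (b i)) Finset.univ.toList).2 := by
    refine (eq_top_iff.2 fun x _ => ?_).symm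
    obtain ⟨a, ha, c, hc, rfl⟩ := h.split x
    exact Submodule.add_mem_sup ha hc
  rw [this]
  exact (fg_eo _).1.sup (fg_eo _).2

theorem IsON.mem_ev (h : IsON Q b) {x : CliffordAlgebra Q} (hx : involute x = x) :
    x ∈ (EO (fun i => ι Q (b i)) Finset.univ.toList).1 := by
  obtain ⟨a, ha, c, hc, rfl⟩ := h.split x
  obtain ⟨m1, m2⟩ := map_eo (e := fun i => ι Q (b i)) involute (fun i => involute_ι _)
    Finset.univ.toList
  rw [map_add, m1 a ha, m2 c hc, add_right_inj] at hx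
  have : c = 0 := by
    have h2 : (2 : ℝ) • c = 0 := by rw [two_smul]; nth_rewrite 1 [← hx]; simp
    exact (smul_eq_zero.1 h2).resolve_left two_ne_zero
  simpa [this] using ha

/-- An even element that commutes with the generators is a scalar. -/
theorem IsON.scalar (h : IsON Q b) {x : CliffordAlgebra Q} (hx : involute x = x)
    (hc : ∀ i, ι Q (b i) * x = x * ι Q (b i)) : ∃ r : ℝ, x = r • 1 := by
  obtain ⟨r, hr⟩ := avg_ev h.sq h.anti _ (Finset.nodup_toList _) x (h.mem_ev hx)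
  rw [avg_comm h.sq _ x hc] at hr
  refine ⟨((2 : ℝ) ^ (Finset.univ : Finset κ).toList.length)⁻¹ * r, ?_⟩
  rw [mul_smul, ← hr, smul_smul, inv_mul_cancel₀ (by positivity), one_smul]

/-- An even skew element that commutes with the generators vanishes. -/
theorem IsON.eq_zero (h : IsON Q b) {x : CliffordAlgebra Q} (hx : involute x = x)
    (hc : ∀ i, ι Q (b i) * x = x * ι Q (b i)) (hs : star x = -x) : x = 0 := by
  obtain ⟨r, rfl⟩ := h.scalar hx hc
  have h1 : star (r • (1 : CliffordAlgebra Q)) = r • 1 := by simp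
  rw [h1] at hs
  have h2 : (2 : ℝ) • (r • (1 : CliffordAlgebra Q)) = 0 := by
    rw [two_smul]; nth_rewrite 1 [hs]; simp
  exact (smul_eq_zero.1 h2).resolve_left two_ne_zero

theorem exists_dual_one (Q : QuadraticForm ℝ V) :
    ∃ l : CliffordAlgebra Q →ₗ[ℝ] ℝ, l 1 = 1 := by
  obtain ⟨l, hl⟩ := Module.Projective.exists_dual_eq_one ℝ (one_ne_zero (α := CliffordAlgebra Q))
  exact ⟨l, hl⟩

/-- The averaging operator maps even elements to scalars, linearly. -/
theorem IsON.exists_rho (h : IsON Q b) : ∃ ρ : CliffordAlgebra Q →ₗ[ℝ] ℝ, 0 < ρ 1 ∧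
    ∀ x, involute x = x →
      avg (fun i => ι Q (b i)) (fun i => ι Q (b i)) Finset.univ.toList x = ρ x • 1 := by
  obtain ⟨l, hl⟩ := exists_dual_one Q
  refine ⟨l ∘ₗ avg (fun i => ι Q (b i)) (fun i => ι Q (b i)) Finset.univ.toList, ?_, fun x hx => ?_⟩
  · rw [LinearMap.comp_apply, avg_comm h.sq _ 1 (by simp), map_smul, hl]
    simp
  · obtain ⟨r, hr⟩ := avg_ev h.sq h.anti _ (Finset.nodup_toList _) x (h.mem_ev hx)
    rw [LinearMap.comp_apply, hr, map_smul, hl]
    simp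

end Cliff

end Pool.Agent.Lib.SMG
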