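import Pool.Agent.Lib.LICH.Loc

/-! Change of the orthonormal frame: Christoffel symbols, curvature, connection, Dirac operator. -/

noncomputable section

open Finset Filter Topology VectorField

set_option linter.unusedSectionVars false

namespace Pool.Agent.Lib.SMG

open LICH

variable {E ι : Type*} [NormedAddCommGroup E] [NormedSpace ℝ E] [Fintype ι] [DecidableEq ι]
  {e e' : ι → E → E} {c c' : ι → ι → ι → E → ℝ} {O : ι → ι → E → ℝ} {x : E}

/-- Near `x` the frame `e'` is the frame `e` rotated by the orthogonal matrix `O`. -/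
structure Rot (e e' : ι → E → E) (O : ι → ι → E → ℝ) (x : E) : Prop where
  sm : ∀ i j, ContDiffAt ℝ 2 (O i j) x
  eq : ∀ᶠ y in 𝓝 x, ∀ j, e' j y = ∑ i, O i j y • e i y
  orth : ∀ᶠ y in 𝓝 x, ∀ k l, ∑ m, O m k y * O m l y = if k = l then 1 else 0

theorem orth_comm {M : ι → ι → ℝ} (h : ∀ k l, ∑ m, M m k * M m l = if k = l then 1 else 0)
    (k l : ι) : ∑ m, M k m * M l m = if k = l then 1 else 0 := by
  have h1 : (Matrix.of M).transpose * Matrix.of M = 1 := by
    ext k l
    simp [Matrix.mul_apply, Matrix.one_apply, h]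
  have h3 : Matrix.of M * (Matrix.of M).transpose = 1 := mul_eq_one_comm.1 h1
  have h2 := congrFun (congrFun h3 k) l
  simpa [Matrix.mul_apply, Matrix.one_apply] using h2

theorem Rot.d (h : Rot e e' O x) (i j : ι) : DifferentiableAt ℝ (O i j) x :=
  (h.sm i j).differentiableAt two_ne_zero

theorem Rot.ev (h : Rot e e' O x) : ∀ᶠ y in 𝓝 x, Rot e e' O y := by
  have h1 : ∀ᶠ y in 𝓝 x, ∀ i j, ContDiffAt ℝ 2 (O i j) y :=
    eventually_all.2 fun i => eventually_all.2 fun j => (h.sm i j).eventually (by simp)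
  filter_upwards [h1, h.eq.eventually_nhds, h.orth.eventually_nhds] with y a b c
  exact ⟨a, b, c⟩

theorem Rot.X {F : Type*} [NormedAddCommGroup F] [NormedSpace ℝ F] (h : Rot e e' O x) (j : ι)
    (u : E → F) : X (e' j) u x = ∑ i, O i j x • X (e i) u x := by
  simp only [LICH.X, h.eq.self_of_nhds j, map_sum, map_smul]

/-- The matrix `dOᵀ O` is skew. -/
theorem Rot.skew (h : Rot e e' O x) (V : E → E) (k l : ι) :
    ∑ m, LICH.X V (O m k) x * O m l x = -∑ m, LICH.X V (O m l) x * O m k x := by
  have h1 : LICH.X V (fun y => ∑ m, O m k y * O m l y) x = 0 := by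
    rw [X_congr (v := fun _ => if k = l then (1 : ℝ) else 0) (h.orth.mono fun y hy => hy k l),
      X_const]
  rw [X_sum fun m _ => (h.d m k).fun_mul (h.d m l)] at h1
  simp only [X_mul (h.d _ k) (h.d _ l), sum_add_distrib] at h1
  rw [eq_neg_iff_add_eq_zero, ← h1, add_comm]
  congr 1
  exact sum_congr rfl fun m _ => by ring

/-- The structure functions of the rotated frame. -/
theorem Rot.struct (h : Rot e e' O x) (de : ∀ i, DifferentiableAt ℝ (e i) x)
    (br : ∀ i j, lieBracket ℝ (e i) (e j) x = ∑ k, c i j k x • e k x)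
    (br' : ∀ i j, lieBracket ℝ (e' i) (e' j) x = ∑ k, c' i j k x • e' k x)
    (li : LinearIndependent ℝ fun i => e i x) (j k p : ι) :
    ∑ l, c' j k l x * O p l x = LICH.X (e' j) (O p k) x - LICH.X (e' k) (O p j) x +
      ∑ i, ∑ m, O i j x * O m k x * c i m p x := by
  have e1 : ∀ j k, fderiv ℝ (e' k) x (e' j x) =
      ∑ m, (LICH.X (e' j) (O m k) x • e m x + O m k x • ∑ i, O i j x • fderiv ℝ (e m) x (e i x)) := by
    intro j k
    change LICH.X (e' j) (e' k) x = _
    rw [X_congr (v := fun y => ∑ i, O i k y • e i y) (h.eq.mono fun y hy => hy k),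
      X_sum fun m _ => (h.d m k).fun_smul (de m)]
    refine sum_congr rfl fun m _ => ?_
    rw [X_smul (h.d m k) (de m), h.X j (e m), add_comm]
    rfl
  have e2 : ∑ p, (∑ l, c' j k l x * O p l x) • e p x =
      ∑ p, (LICH.X (e' j) (O p k) x - LICH.X (e' k) (O p j) x +
        ∑ i, ∑ m, O i j x * O m k x * c i m p x) • e p x := by
    have a1 : ∑ p, (∑ l, c' j k l x * O p l x) • e p x = lieBracket ℝ (e' j) (e' k) x := by
      rw [br']
      simp only [h.eq.self_of_nhds, sum_smul, smul_sum, smul_smul]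
      exact sum_comm
    have a2 : ∑ p, (∑ i, ∑ m, O i j x * O m k x * c i m p x) • e p x =
        ∑ i, ∑ m, (O i j x * O m k x) • (fderiv ℝ (e m) x (e i x) - fderiv ℝ (e i) x (e m x)) := by
      simp only [sum_smul]
      rw [sum_comm]
      refine sum_congr rfl fun i _ => ?_
      rw [sum_comm]
      refine sum_congr rfl fun m _ => ?_
      have := br i m
      rw [lieBracket] at this
      rw [this, smul_sum]
      exact sum_congr rfl fun p _ => by rw [smul_smul]
    rw [a1, lieBracket, e1, e1]
    simp only [add_smul, sub_smul, sum_add_distrib, sum_sub_distrib, a2, smul_sub, smul_sum,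
      smul_smul]
    rw [sum_comm (f := fun m i => (O m k x * O i j x) • fderiv ℝ (e m) x (e i x))]
    simp only [mul_comm (O _ k x)]
    abel
  have := Fintype.linearIndependent_iff.1 li (fun p => (∑ l, c' j k l x * O p l x) -
    (LICH.X (e' j) (O p k) x - LICH.X (e' k) (O p j) x +
      ∑ i, ∑ m, O i j x * O m k x * c i m p x)) (by
    simp only [sub_smul (∑ l, c' j k l x * O _ l x), sum_sub_distrib, e2, sub_self]) p
  linarith

/-- The connection matrix of `e` along `e i`, conjugated to the frame `e'`. -/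
def cg (e : ι → E → E) (c : ι → ι → ι → E → ℝ) (O : ι → ι → E → ℝ) (i k l : ι) (x : E) : ℝ :=
  ∑ m, LICH.X (e i) (O m k) x * O m l x + ∑ m, ∑ p, O m k x * chr c i m p x * O p l x

theorem skew_of_br {e : ι → E → E} {c : ι → ι → ι → E → ℝ}
    (br : ∀ i j, lieBracket ℝ (e i) (e j) x = ∑ k, c i j k x • e k x)
    (li : LinearIndependent ℝ fun i => e i x) (i j k : ι) : c i j k x = -c j i k x := by
  have h3 := Fintype.linearIndependent_iff.1 li (fun k => c i j k x + c j i k x) (by
    simp only [add_smul, sum_add_distrib, ← br]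
    rw [lieBracket_swap, neg_add_cancel]) k
  linarith

theorem Rot.chr_at (h : Rot e e' O x) (de : ∀ i, DifferentiableAt ℝ (e i) x)
    (br : ∀ i j, lieBracket ℝ (e i) (e j) x = ∑ k, c i j k x • e k x)
    (br' : ∀ i j, lieBracket ℝ (e' i) (e' j) x = ∑ k, c' i j k x • e' k x)
    (li : LinearIndependent ℝ fun i => e i x) (j k l : ι) :
    chr c' j k l x = ∑ i, O i j x * cg e c O i k l x := by
  have sk := skew_of_br br li
  set G : ι → ι → ι → ℝ := fun j k l => ∑ i, O i j x * cg e c O i k l x with hG
  have g1 : ∀ j k l, G j k l = -G j l k := by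
    intro j k l
    simp only [hG, cg, ← sum_neg_distrib, ← mul_neg]
    refine sum_congr rfl fun i _ => ?_
    rw [h.skew, neg_add, sum_comm (f := fun m p => O m l x * chr c i m p x * O p k x)]
    simp only [← sum_neg_distrib]
    congr 2
    refine sum_congr rfl fun m _ => sum_congr rfl fun p _ => ?_
    rw [chr_skew sk]; ring
  have g2 : ∀ j k l, c' j k l x = G j k l - G k j l := by
    intro j k l
    have a1 : c' j k l x = ∑ p, (∑ l', c' j k l' x * O p l' x) * O p l x := by
      simp only [sum_mul, mul_assoc]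
      rw [sum_comm]
      simp [← mul_sum, h.orth.self_of_nhds]
    have a2 : ∀ j k, G j k l = ∑ p, (LICH.X (e' j) (O p k) x +
        ∑ i, ∑ m, O i j x * O m k x * chr c i m p x) * O p l x := by
      intro j k
      simp only [hG, cg, h.X j, smul_eq_mul, mul_add, add_mul, sum_add_distrib, mul_sum, sum_mul]
      congr 1
      · rw [sum_comm]
        exact sum_congr rfl fun _ _ => sum_congr rfl fun _ _ => by ring
      · conv_rhs => rw [sum_comm]
        refine sum_congr rfl fun i _ => ?_
        rw [sum_comm]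
        exact sum_congr rfl fun _ _ => sum_congr rfl fun _ _ => by ring
    rw [a1, a2, a2, ← sum_sub_distrib]
    refine sum_congr rfl fun p _ => ?_
    rw [h.struct de br br' li, ← sub_mul]
    congr 1
    rw [sum_comm (f := fun i m => O i k x * O m j x * chr c i m p x)]
    have : ∑ i, ∑ m, O i j x * O m k x * c i m p x = ∑ i, ∑ m, O i j x * O m k x * chr c i m p x -
        ∑ i, ∑ m, O m k x * O i j x * chr c m i p x := by
      simp only [← sum_sub_distrib]
      refine sum_congr rfl fun i _ => sum_congr rfl fun m _ => ?_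
      rw [← chr_tors sk]; ring
    rw [this]; ring
  change _ = G j k l
  rw [chr, g2, g2, g2]
  linarith [g1 j k l, g1 k j l, g1 k l j, g1 l k j, g1 l j k, g1 j l k]

/-- The Christoffel symbols of the rotated frame. -/
theorem Rot.chr_ev (h : Rot e e' O x) (f : FrameAt e c x) (f' : FrameAt e' c' x) :
    ∀ᶠ y in 𝓝 x, ∀ j k l, chr c' j k l y = ∑ i, O i j y * cg e c O i k l y := by
  have h1 : ∀ᶠ y in 𝓝 x, ∀ i, ContDiffAt ℝ 2 (e i) y :=
    eventually_all.2 fun i => (f.sm i).eventually (by simp)
  filter_upwards [h.ev, h1, f.li, eventually_all.2 fun i => eventually_all.2 fun j => f.br i j,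
    eventually_all.2 fun i => eventually_all.2 fun j => f'.br i j] with y a b l b1 b2
  exact a.chr_at (fun i => (b i).differentiableAt two_ne_zero) b1 b2 l

theorem Rot.chr (h : Rot e e' O x) (f : FrameAt e c x) (f' : FrameAt e' c' x) (j k l : ι) :
    chr c' j k l x = ∑ i, O i j x * cg e c O i k l x := (h.chr_ev f f').self_of_nhds j k l

theorem Rot.dX (h : Rot e e' O x) (f : FrameAt e c x) (i m k : ι) :
    DifferentiableAt ℝ (LICH.X (e i) (O m k)) x := diff_X (f.de i) (h.sm m k)

theorem Rot.dcg (h : Rot e e' O x) (f : FrameAt e c x) (i k l : ι) :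
    DifferentiableAt ℝ (cg e c O i k l) x :=
  (DifferentiableAt.fun_sum fun m _ => (h.dX f i m k).fun_mul (h.d m l)).fun_add
    (DifferentiableAt.fun_sum fun m _ => DifferentiableAt.fun_sum fun p _ =>
      ((h.d m k).fun_mul (f.dchr i m p)).fun_mul (h.d p l))

theorem Rot.X_cg (h : Rot e e' O x) (f : FrameAt e c x) (V : E → E) (j k l : ι) :
    LICH.X V (cg e c O j k l) x =
      ∑ m, (LICH.X V (LICH.X (e j) (O m k)) x * O m l x +
        LICH.X (e j) (O m k) x * LICH.X V (O m l) x) +
      ∑ m, ∑ p, (LICH.X V (O m k) x * LICH.chr c j m p x * O p l x +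
        O m k x * LICH.X V (LICH.chr c j m p) x * O p l x +
        O m k x * LICH.chr c j m p x * LICH.X V (O p l) x) := by
  have d1 := fun m => (h.dX f j m k).fun_mul (h.d m l)
  have d2 := fun m p => ((h.d m k).fun_mul (f.dchr j m p)).fun_mul (h.d p l)
  change LICH.X V (fun y => _ + _) x = _
  rw [X_add (DifferentiableAt.fun_sum fun m _ => d1 m)
    (DifferentiableAt.fun_sum fun m _ => DifferentiableAt.fun_sum fun p _ => d2 m p),
    X_sum fun m _ => d1 m, X_sum fun m _ => DifferentiableAt.fun_sum fun p _ => d2 m p]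
  congr 1
  · refine sum_congr rfl fun m _ => ?_
    rw [X_mul (h.dX f j m k) (h.d m l)]; ring
  · refine sum_congr rfl fun m _ => ?_
    rw [X_sum fun p _ => d2 m p]
    refine sum_congr rfl fun p _ => ?_
    rw [X_mul ((h.d m k).fun_mul (f.dchr j m p)) (h.d p l), X_mul (h.d m k) (f.dchr j m p)]; ring

theorem gauge_alg {A : Type*} [Ring A] [Algebra ℝ A] {o t di dj ti tj tij tji gi gj dij dji : A}
    {cf : ι → ℝ} {tm gm : ι → A} (h1 : o * t = 1) (hi : ti * o = -(t * di))
    (hj : tj * o = -(t * dj)) (hc : tij - tji = ∑ m, cf m • tm m) :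
    (tij * o + tj * di + (ti * gj * o + t * dij * o + t * gj * di)) -
      (tji * o + ti * dj + (tj * gi * o + t * dji * o + t * gi * dj)) +
      ((tj * o + t * gj * o) * (ti * o + t * gi * o) -
        (ti * o + t * gi * o) * (tj * o + t * gj * o) - ∑ m, cf m • (tm m * o + t * gm m * o)) =
      t * (dij - dji + (gj * gi - gi * gj - ∑ m, cf m • gm m)) * o := by
  have a1 : o * (ti * o) = -di := by rw [hi, mul_neg, ← mul_assoc, h1, one_mul]
  have a2 : o * (tj * o) = -dj := by rw [hj, mul_neg, ← mul_assoc, h1, one_mul]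
  have a3 : ∀ z, o * (t * z) = z := fun z => by rw [← mul_assoc, h1, one_mul]
  have a4 : ∑ m, cf m • (tm m * o + t * gm m * o) =
      (tij - tji) * o + t * (∑ m, cf m • gm m) * o := by
    simp [hc, sum_mul, mul_sum, sum_add_distrib]
  rw [a4]
  simp only [mul_add, add_mul, mul_sub, sub_mul, mul_assoc, a1, a2, a3, mul_neg]
  abel

theorem Rot.curv_cg (h : Rot e e' O x) (f : FrameAt e c x) (i j k l : ι) :
    LICH.X (e i) (cg e c O j k l) x - LICH.X (e j) (cg e c O i k l) x +
      ∑ m, (cg e c O j k m x * cg e c O i m l x - cg e c O i k m x * cg e c O j m l x -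
        c i j m x * cg e c O m k l x) = ∑ a, ∑ b, O a k x * riem e c i j a b x * O b l x := by
  set o : Matrix ι ι ℝ := Matrix.of fun a b => O a b x with ho
  set d : ι → Matrix ι ι ℝ := fun i => Matrix.of fun a b => LICH.X (e i) (O a b) x with hd
  set dd : ι → ι → Matrix ι ι ℝ := fun i j =>
    Matrix.of fun a b => LICH.X (e i) (LICH.X (e j) (O b a)) x with hdd
  set g : ι → Matrix ι ι ℝ := fun i => Matrix.of fun a b => LICH.chr c i a b x with hg
  set dg : ι → ι → Matrix ι ι ℝ := fun i j =>
    Matrix.of fun a b => LICH.X (e i) (LICH.chr c j a b) x with hdg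
  have h1 : o * o.transpose = 1 := by
    ext a b
    simp [ho, Matrix.mul_apply, Matrix.one_apply, orth_comm h.orth.self_of_nhds]
  have h2 : ∀ i, (d i).transpose * o = -(o.transpose * d i) := by
    intro i
    ext a b
    simp only [ho, hd, Matrix.mul_apply, Matrix.neg_apply, Matrix.transpose_apply, Matrix.of_apply]
    rw [h.skew]
    simp only [mul_comm]
  have h3 : dd i j - dd j i = ∑ m, c i j m x • (d m).transpose := by
    ext a b
    simp only [hdd, hd, Matrix.sub_apply, Matrix.sum_apply, Matrix.smul_apply,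
      Matrix.transpose_apply, Matrix.of_apply]
    rw [X_comm (f.de i) (f.de j) (h.sm b a), (f.br i j).self_of_nhds]
    simp [LICH.X]
  have h4 := congrFun (congrFun (gauge_alg (gi := g i) (gj := g j) (dij := dg i j) (dji := dg j i)
    (gm := g) h1 (h2 i) (h2 j) h3) k) l
  have c1 : ∀ i a b, ((d i).transpose * o + o.transpose * g i * o) a b = cg e c O i a b x := by
    intro i a b
    simp only [ho, hd, hg, cg, Matrix.add_apply, Matrix.mul_apply, Matrix.transpose_apply,
      Matrix.of_apply, sum_mul]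
    rw [sum_comm (f := fun p m => O m a x * LICH.chr c i m p x * O p b x)]
  have c2 : ∀ i j, (dd i j * o + (d j).transpose * d i + ((d i).transpose * g j * o +
      o.transpose * dg i j * o + o.transpose * g j * d i)) k l = LICH.X (e i) (cg e c O j k l) x := by
    intro i j
    rw [h.X_cg f]
    simp only [ho, hd, hg, hdd, hdg, Matrix.add_apply, Matrix.mul_apply, Matrix.transpose_apply,
      Matrix.of_apply, sum_mul, sum_add_distrib]
    congr 2
    · congr 1 <;> exact sum_comm
    · exact sum_comm
  have c3 : ∀ a b, (dg i j - dg j i + (g j * g i - g i * g j - ∑ m, c i j m x • g m)) a b =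
      riem e c i j a b x := by
    intro a b
    simp [hg, hdg, riem, Matrix.mul_apply, Matrix.sum_apply, sum_sub_distrib]
  rw [Matrix.add_apply, Matrix.sub_apply, c2, c2, Matrix.sub_apply, Matrix.sub_apply,
    Matrix.mul_apply, Matrix.mul_apply, Matrix.sum_apply] at h4
  simp only [Matrix.smul_apply, c1, smul_eq_mul] at h4
  rw [sum_sub_distrib, sum_sub_distrib, h4, Matrix.mul_apply, sum_comm]
  refine sum_congr rfl fun b _ => ?_
  rw [Matrix.mul_apply, sum_mul]
  refine sum_congr rfl fun a _ => ?_
  rw [c3]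
  rfl

/-- The curvature is a tensor. -/
theorem Rot.riem (h : Rot e e' O x) (f : FrameAt e c x) (f' : FrameAt e' c' x) (j k a b : ι) :
    riem e' c' j k a b x =
      ∑ i, ∑ m, O i j x * O m k x * ∑ p, ∑ q, O p a x * LICH.riem e c i m p q x * O q b x := by
  have e1 : ∀ j k, LICH.X (e' j) (LICH.chr c' k a b) x =
      ∑ m, LICH.X (e' j) (O m k) x * cg e c O m a b x +
        ∑ i, ∑ m, O i j x * O m k x * LICH.X (e i) (cg e c O m a b) x := by
    intro j k
    rw [X_congr (v := fun y => ∑ i, O i k y * cg e c O i a b y)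
      ((h.chr_ev f f').mono fun y hy => hy k a b), X_sum fun m _ => (h.d m k).fun_mul (h.dcg f m a b),
      sum_comm, ← sum_add_distrib]
    refine sum_congr rfl fun m _ => ?_
    rw [X_mul (h.d m k) (h.dcg f m a b), h.X j (cg e c O m a b), mul_sum, add_comm]
    congr 1
    exact sum_congr rfl fun i _ => by rw [smul_eq_mul]; ring
  have e2 : ∑ m, c' j k m x * LICH.chr c' m a b x =
      ∑ p, (LICH.X (e' j) (O p k) x - LICH.X (e' k) (O p j) x +
        ∑ i, ∑ m, O i j x * O m k x * c i m p x) * cg e c O p a b x := by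
    simp only [← h.struct f.de (fun i j => (f.br i j).self_of_nhds)
      (fun i j => (f'.br i j).self_of_nhds) f.li.self_of_nhds]
    simp only [h.chr f f', mul_sum, sum_mul, mul_assoc]
    exact sum_comm
  have e3 : ∀ j k, ∑ q, LICH.chr c' k a q x * LICH.chr c' j q b x =
      ∑ i, ∑ m, O i j x * O m k x * ∑ q, cg e c O m a q x * cg e c O i q b x := by
    intro j k
    simp only [h.chr f f', sum_mul, mul_sum]
    rw [sum_comm]
    refine sum_congr rfl fun i _ => ?_
    rw [sum_comm]
    exact sum_congr rfl fun _ _ => sum_congr rfl fun _ _ => by ring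
  have e4 : ∑ p, (∑ i, ∑ m, O i j x * O m k x * c i m p x) * cg e c O p a b x =
      ∑ i, ∑ m, O i j x * O m k x * ∑ p, c i m p x * cg e c O p a b x := by
    simp only [sum_mul, mul_sum]
    rw [sum_comm]
    refine sum_congr rfl fun i _ => ?_
    rw [sum_comm]
    exact sum_congr rfl fun _ _ => sum_congr rfl fun _ _ => by ring
  simp only [← h.curv_cg f]
  rw [LICH.riem, sum_sub_distrib, sum_sub_distrib, e1, e1, e2, e3, e3,
    sum_comm (f := fun i m => O i k x * O m j x * LICH.X (e i) (cg e c O m a b) x),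
    sum_comm (f := fun i m => O i k x * O m j x * ∑ q, cg e c O m a q x * cg e c O i q b x)]
  simp only [add_mul, sub_mul, mul_add, mul_sub, sum_add_distrib, sum_sub_distrib, e4,
    mul_comm (O _ k x) (O _ j x)]
  ring

theorem sum4 {A : Type*} [AddCommMonoid A] (F : ι → ι → ι → ι → A) :
    ∑ j, ∑ k, ∑ p, ∑ q, F j k p q = ∑ p, ∑ q, ∑ j, ∑ k, F j k p q := by
  have h1 : ∀ j, ∑ k, ∑ p, ∑ q, F j k p q = ∑ p, ∑ q, ∑ k, F j k p q := fun j => by
    rw [sum_comm]
    exact sum_congr rfl fun p _ => sum_comm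
  simp only [h1]
  rw [sum_comm]
  exact sum_congr rfl fun p _ => sum_comm

/-- The scalar curvature does not depend on the orthonormal frame. -/
theorem Rot.scal (h : Rot e e' O x) (f : FrameAt e c x) (f' : FrameAt e' c' x) :
    scal e' c' x = scal e c x := by
  have o2 := orth_comm h.orth.self_of_nhds
  simp only [LICH.scal, h.riem f f']
  rw [sum4]
  refine sum_congr rfl fun i _ => sum_congr rfl fun m _ => ?_
  have a1 : ∑ j, ∑ k, O i j x * O m k x * ∑ p, ∑ q, O p k x * LICH.riem e c i m p q x * O q j x =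
      ∑ p, ∑ q, (∑ j, O i j x * O q j x) * (∑ k, O m k x * O p k x) * LICH.riem e c i m p q x := by
    simp only [sum_mul_sum]
    simp only [mul_sum, sum_mul]
    rw [sum4]
    exact sum_congr rfl fun _ _ => sum_congr rfl fun _ _ => sum_congr rfl fun _ _ =>
      sum_congr rfl fun _ _ => by ring
  rw [a1]
  simp [o2]

end Pool.Agent.Lib.SMG
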