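import Pool.Agent.Lib.SMG.Alg

/-! A continuous lift to `Spin(n)` of a smooth family of rotations is smooth. -/

noncomputable section

open CliffordAlgebra Filter Topology
open scoped Manifold ContDiff

namespace Pool.Agent.Lib.SMG

variable {E H Z : Type*} [NormedAddCommGroup E] [NormedSpace ℝ E] [TopologicalSpace H]
  {I : ModelWithCorners ℝ E H} [TopologicalSpace Z] [ChartedSpace H Z]
  {A : Type*} [Ring A] [Algebra ℝ A]

/-- Finite sums of smooth functions times constant elements of an algebra. -/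
inductive Pol (I : ModelWithCorners ℝ E H) (O : Set Z) (y : Z) : (Z → A) → Prop
  | smul (φ : Z → ℝ) (x : A) (h : ContMDiffWithinAt I 𝓘(ℝ, ℝ) ∞ φ O y) :
      Pol I O y fun z => φ z • x
  | add {f g : Z → A} (hf : Pol I O y f) (hg : Pol I O y g) : Pol I O y fun z => f z + g z

namespace Pol

variable {O : Set Z} {y : Z} {f g : Z → A}

theorem const (x : A) : Pol I O y fun _ => x := by
  simpa using Pol.smul (I := I) (O := O) (y := y) (fun _ => (1 : ℝ)) x contMDiffWithinAt_const

theorem map {B : Type*} [Ring B] [Algebra ℝ B] (L : A →ₗ[ℝ] B) (hf : Pol I O y f) :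
    Pol I O y fun z => L (f z) := by
  induction hf with
  | smul φ x h => simpa using Pol.smul φ (L x) h
  | add _ _ h1 h2 => simpa using h1.add h2

theorem fsmul {φ : Z → ℝ} (h : ContMDiffWithinAt I 𝓘(ℝ, ℝ) ∞ φ O y) (hf : Pol I O y f) :
    Pol I O y fun z => φ z • f z := by
  induction hf with
  | smul ψ x h' => simpa [smul_smul] using Pol.smul (fun z => φ z * ψ z) x (h.mul h')
  | add _ _ h1 h2 => simpa using h1.add h2

theorem mul (hf : Pol I O y f) (hg : Pol I O y g) : Pol I O y fun z => f z * g z := by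
  induction hf with
  | smul φ x h => simpa using (hg.map (LinearMap.mulLeft ℝ x)).fsmul h
  | add _ _ h1 h2 => simpa [add_mul] using h1.add h2

theorem sub (hf : Pol I O y f) (hg : Pol I O y g) : Pol I O y fun z => f z - g z := by
  simpa [sub_eq_add_neg] using hf.add (hg.map (-LinearMap.id : A →ₗ[ℝ] A))

theorem sum {κ : Type*} (s : Finset κ) {F : κ → Z → A} (h : ∀ i, Pol I O y (F i)) :
    Pol I O y fun z => ∑ i ∈ s, F i z := by
  classical
  induction s using Finset.induction_on with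
  | empty => simpa using const 0
  | insert i s hi ih => simpa [Finset.sum_insert hi] using (h i).add ih

theorem avg {κ : Type*} {F : κ → Z → A} (hF : ∀ i, Pol I O y (F i)) (e : κ → A) (l : List κ)
    (hg : Pol I O y g) : Pol I O y fun z => SMG.avg (fun i => F i z) e l (g z) := by
  induction l generalizing g with
  | nil => simpa [SMG.avg] using hg
  | cons i l ih =>
    simp only [avg_cons]
    exact ih (hg.sub (((hF i).mul hg).mul (const _)))

theorem smooth {W : Type*} [NormedAddCommGroup W] [NormedSpace ℝ W] (L : A →ₗ[ℝ] W)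
    (hf : Pol I O y f) : ContMDiffWithinAt I 𝓘(ℝ, W) ∞ (fun z => L (f z)) O y := by
  induction hf with
  | smul φ x h =>
    simp only [map_smul]
    exact h.smul contMDiffWithinAt_const
  | add _ _ h1 h2 =>
    simp only [map_add]
    exact h1.add h2

end Pol

variable {V : Type*} [AddCommGroup V] [Module ℝ V] {Q : QuadraticForm ℝ V} {κ : Type*}
  [Fintype κ] {b : κ → V}

/-- The involution `star` as a linear map. -/
def starL (Q : QuadraticForm ℝ V) : CliffordAlgebra Q →ₗ[ℝ] CliffordAlgebra Q :=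
  reverse ∘ₗ involute.toLinearMap

theorem starL_apply (x : CliffordAlgebra Q) : starL Q x = star x := rfl

theorem cont_mul {O : Set Z} {y : Z} {s : Z → CliffordAlgebra Q}
    (hc : ∀ l : CliffordAlgebra Q →ₗ[ℝ] ℝ, ContinuousWithinAt (fun z => l (s z)) O y)
    (ρ : CliffordAlgebra Q →ₗ[ℝ] ℝ) (x : CliffordAlgebra Q) :
    ContinuousWithinAt (fun z => ρ (star (s z) * x)) O y :=
  hc (ρ ∘ₗ LinearMap.mulRight ℝ x ∘ₗ starL Q)

/-- Near `y` a continuous lift of a smooth family of rotations is a finite sum of smooth functions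
times constants. -/
theorem IsON.pol (h : IsON Q b) {O : Set Z} {y : Z} (hy : y ∈ O) {s : Z → CliffordAlgebra Q}
    (hs : ∀ z ∈ O, s z ∈ spinGroup Q)
    (hc : ∀ l : CliffordAlgebra Q →ₗ[ℝ] ℝ, ContinuousWithinAt (fun z => l (s z)) O y)
    {a : κ → κ → Z → ℝ} (ha : ∀ i j, ContMDiffWithinAt I 𝓘(ℝ, ℝ) ∞ (a i j) O y)
    (hA : ∀ z ∈ O, ∀ i, ι Q (∑ j, a i j z • b j) * s z = s z * ι Q (b i)) :
    ∃ t : Z → CliffordAlgebra Q, Pol I O y t ∧ s =ᶠ[𝓝[O] y] t := by
  obtain ⟨ρ, ρ1, hρ⟩ := h.exists_rho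
  obtain ⟨l, hl⟩ := exists_dual_one Q
  set F : κ → Z → CliffordAlgebra Q := fun i z => ι Q (∑ j, a i j z • b j) with hF
  have pF : ∀ i, Pol I O y (F i) := by
    intro i
    simp only [hF, map_sum, map_smul]
    exact Pol.sum _ fun j => Pol.smul _ _ (ha i j)
  set T : Z → CliffordAlgebra Q := fun z =>
    avg (fun i => F i z) (fun i => ι Q (b i)) Finset.univ.toList (s y) with hT
  have pT : Pol I O y T := Pol.avg pF _ _ (Pol.const _)
  set r : Z → ℝ := fun z => ρ (star (s z) * s y) with hr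
  have hTr : ∀ z ∈ O, T z = r z • s z := by
    intro z hz
    have e1 : s y = s z * (star (s z) * s y) := by
      rw [← mul_assoc, spinGroup.mul_star_self_of_mem (hs z hz), one_mul]
    have e2 : involute (star (s z) * s y) = star (s z) * s y := by
      rw [map_mul, spinGroup.involute_eq (spinGroup.star_mem (hs z hz)),
        spinGroup.involute_eq (hs y hy)]
    simp only [hT]
    rw [e1, avg_mul (hA z hz), hρ _ e2]
    simp [hr]
  have r0 : 0 < r y := by
    simp only [hr]
    rwa [spinGroup.star_mul_self_of_mem (hs y hy)]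
  have rc : ContinuousWithinAt r O y := cont_mul hc ρ (s y)
  have rpos : ∀ᶠ z in 𝓝[O] y, 0 < r z := rc.eventually (lt_mem_nhds r0)
  set q : Z → ℝ := fun z => l (star (T z) * T z) with hq
  have sq : ContMDiffWithinAt I 𝓘(ℝ, ℝ) ∞ q O y := ((pT.map (starL Q)).mul pT).smooth l
  have hqr : ∀ z ∈ O, q z = r z ^ 2 := by
    intro z hz
    simp only [hq, hTr z hz, CliffordAlgebra.star_smul, smul_mul_smul_comm,
      spinGroup.star_mul_self_of_mem (hs z hz), map_smul, hl]
    simp [pow_two]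
  have q0 : q y ≠ 0 := by rw [hqr y hy]; positivity
  have s1 : ContMDiffWithinAt I 𝓘(ℝ, ℝ) ∞ (fun z => (Real.sqrt (q z))⁻¹) O y := by
    have c1 : ContDiffAt ℝ ∞ (fun t : ℝ => (Real.sqrt t)⁻¹) (q y) :=
      (Real.contDiffAt_sqrt q0).inv (by rw [hqr y hy, Real.sqrt_sq r0.le]; exact r0.ne')
    exact c1.comp_contMDiffWithinAt sq
  refine ⟨fun z => (Real.sqrt (q z))⁻¹ • T z, pT.fsmul s1, ?_⟩
  filter_upwards [rpos, self_mem_nhdsWithin] with z h1 h2
  rw [hqr z h2, Real.sqrt_sq h1.le, hTr z h2, smul_smul, inv_mul_cancel₀ h1.ne', one_smul]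

/-- A continuous lift to the spin group of a smooth family of rotations is smooth. -/
theorem IsON.smooth (h : IsON Q b) {O : Set Z} {s : Z → CliffordAlgebra Q}
    (hs : ∀ z ∈ O, s z ∈ spinGroup Q)
    (hc : ∀ l : CliffordAlgebra Q →ₗ[ℝ] ℝ, ContinuousOn (fun z => l (s z)) O)
    {a : κ → κ → Z → ℝ} (ha : ∀ i j, ContMDiffOn I 𝓘(ℝ, ℝ) ∞ (a i j) O)
    (hA : ∀ z ∈ O, ∀ i, ι Q (∑ j, a i j z • b j) * s z = s z * ι Q (b i))
    {W : Type*} [NormedAddCommGroup W] [NormedSpace ℝ W] (L : CliffordAlgebra Q →ₗ[ℝ] W) :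
    ContMDiffOn I 𝓘(ℝ, W) ∞ (fun z => L (s z)) O := by
  intro y hy
  obtain ⟨t, pt, ht⟩ := h.pol (I := I) hy hs (fun l => hc l y hy) (fun i j => ha i j y hy) hA
  refine (pt.smooth L).congr_of_eventuallyEq ?_ ?_
  · filter_upwards [ht] with z hz
    rw [hz]
  · rw [ht.self_of_nhdsWithin hy]

end Pool.Agent.Lib.SMG
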