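import Pool.Agent.Lib.SMG.Flat
import Pool.Agent.Lib.SMG.Alg

/-! Covariance of the spin connection and of the Dirac operator. -/

noncomputable section

open Finset Filter Topology VectorField CliffordAlgebra

set_option linter.unusedSectionVars false

namespace Pool.Agent.Lib.SMG

open LICH

section Alg

variable {ι A : Type*} [Fintype ι] [DecidableEq ι] [Ring A] [Algebra ℝ A] {σ : ℝ} {γ : ι → A}

theorem lam_conj {a : A} {O : ι → ι → ℝ} (ho : ∀ k l, ∑ m, O m k * O m l = if k = l then 1 else 0)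
    (ha : ∀ k, a * γ k = (∑ m, O m k • γ m) * a) (M : ι → ι → ℝ) :
    lam σ γ M * a = a * lam σ γ fun k l => ∑ m, ∑ p, O m k * M m p * O p l := by
  have o2 := orth_comm ho
  have h1 : ∀ k l, a * (γ k * γ l) = ∑ q, ∑ r, (O q k * O r l) • (γ q * γ r * a) := by
    intro k l
    rw [← mul_assoc, ha, mul_assoc, ha, ← mul_assoc, sum_mul_sum, sum_mul]
    refine sum_congr rfl fun q _ => ?_
    rw [sum_mul]
    exact sum_congr rfl fun r _ => by simp [smul_smul, mul_comm]
  simp only [lam, mul_smul_comm, smul_mul_assoc, mul_sum, sum_mul, h1, smul_sum, smul_smul]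
  rw [sum4]
  refine sum_congr rfl fun q _ => sum_congr rfl fun r _ => ?_
  simp only [← sum_smul]
  congr 1
  have : ∑ k, ∑ l, ∑ m, ∑ p, σ / 4 * (O m k * M m p * O p l) * (O q k * O r l) =
      ∑ m, ∑ p, σ / 4 * M m p * ((∑ k, O m k * O q k) * ∑ l, O p l * O r l) := by
    rw [sum4]
    simp only [sum_mul_sum]
    simp only [mul_sum]
    exact sum_congr rfl fun _ _ => sum_congr rfl fun _ _ => sum_congr rfl fun _ _ =>
      sum_congr rfl fun _ _ => by ring
  rw [this]
  simp [o2]

theorem map_lam {B : Type*} [Ring B] [Algebra ℝ B] (c : A →ₐ[ℝ] B) (M : ι → ι → ℝ) :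
    c (lam σ γ M) = lam σ (fun i => c (γ i)) M := by
  simp [lam]

end Alg

section Cliff

variable {V : Type*} [AddCommGroup V] [Module ℝ V] {Q : QuadraticForm ℝ V} {κ : Type*}
  [Fintype κ] [DecidableEq κ] {b : κ → V}

theorem IsON.rel (h : IsON Q b) : Rel 1 fun i => ι Q (b i) where
  sq := one_mul 1
  anti i j := by
    split_ifs with hij
    · subst hij
      rw [h.sq, mul_one, neg_smul, two_smul]; abel
    · rw [h.anti i j hij]; simp

/-- The matrix of a rotation covered by an element of the spin group is orthogonal. -/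
theorem IsON.orth (h : IsON Q b) {s : CliffordAlgebra Q} (hs : s ∈ spinGroup Q) {O : κ → κ → ℝ}
    (hA : ∀ k, ι Q (∑ m, O m k • b m) * s = s * ι Q (b k)) (k l : κ) :
    ∑ m, O m k * O m l = if k = l then 1 else 0 := by
  have h1 : ∀ k l, ι Q (∑ m, O m k • b m) * ι Q (∑ m, O m l • b m) * s =
      s * (ι Q (b k) * ι Q (b l)) := fun k l => by rw [mul_assoc, hA, ← mul_assoc, hA, mul_assoc]
  have h2 : (ι Q (∑ m, O m k • b m) * ι Q (∑ m, O m l • b m) +
      ι Q (∑ m, O m l • b m) * ι Q (∑ m, O m k • b m)) = (-2 * ∑ m, O m k * O m l) • 1 := by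
    simp only [map_sum, map_smul, sum_mul_sum, smul_mul_smul_comm]
    rw [sum_comm (f := fun i j => (O i l * O j k) • (ι Q (b i) * ι Q (b j))), ← sum_add_distrib,
      mul_sum, sum_smul]
    refine sum_congr rfl fun i _ => ?_
    rw [← sum_add_distrib]
    simp only [mul_comm (O _ l), ← smul_add, h.rel.anti]
    rw [sum_eq_single i (fun j _ hj => by simp [hj.symm]) (by simp)]
    simp [smul_smul, mul_comm]
  have h3 : (-2 * ∑ m, O m k * O m l) • s = (if k = l then -2 * 1 else 0 : ℝ) • s := by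
    have := congrArg (· * s) h2
    simp only [add_mul, h1, ← mul_add, h.rel.anti] at this
    simpa using this.symm
  have h4 : s ≠ 0 := fun h0 => by
    have := spinGroup.star_mul_self_of_mem hs
    rw [h0, mul_zero] at this
    exact zero_ne_one this
  have := smul_left_injective ℝ h4 h3
  split_ifs at this ⊢ <;> linarith

variable {E : Type*} [NormedAddCommGroup E] [NormedSpace ℝ E] {x v : E}

/-- `p'` is the derivative of `p` at `x` along `v`. -/
def HD (p : E → CliffordAlgebra Q) (p' : CliffordAlgebra Q) (x v : E) : Prop :=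
  ∀ l : CliffordAlgebra Q →ₗ[ℝ] ℝ,
    DifferentiableAt ℝ (fun y => l (p y)) x ∧ fderiv ℝ (fun y => l (p y)) x v = l p'

variable {p q : E → CliffordAlgebra Q} {p' q' : CliffordAlgebra Q}

theorem HD.map (L : CliffordAlgebra Q →ₗ[ℝ] CliffordAlgebra Q) (h : HD p p' x v) :
    HD (fun y => L (p y)) (L p') x v := fun l => h (l ∘ₗ L)

theorem HD.unique (h : HD p p' x v) (h' : HD q q' x v) (e : p =ᶠ[𝓝 x] q) : p' = q' := by
  rw [← sub_eq_zero, ← Module.forall_dual_apply_eq_zero_iff ℝ]
  intro l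
  rw [map_sub, ← (h l).2, ← (h' l).2, sub_eq_zero]
  congr 1
  exact EventuallyEq.fderiv_eq (e.mono fun y hy => by simp only [hy])

theorem HD.const (z : CliffordAlgebra Q) : HD (fun _ : E => z) 0 x v := fun l => by simp

theorem HD.vec {κ' : Type*} [Fintype κ'] {f : κ' → E → ℝ} (hf : ∀ m, DifferentiableAt ℝ (f m) x)
    (z : κ' → CliffordAlgebra Q) :
    HD (fun y => ∑ m, f m y • z m) (∑ m, fderiv ℝ (f m) x v • z m) x v := by
  intro l
  simp only [map_sum, map_smul, smul_eq_mul]
  refine ⟨DifferentiableAt.fun_sum fun m _ => (hf m).mul_const _, ?_⟩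
  rw [fderiv_fun_sum fun m _ => (hf m).mul_const _, _root_.sum_apply]
  exact sum_congr rfl fun m _ => by rw [fderiv_mul_const (hf m)]; simp [mul_comm]

theorem IsON.exists_hd (h : IsON Q b)
    (hd : ∀ l : CliffordAlgebra Q →ₗ[ℝ] ℝ, DifferentiableAt ℝ (fun y => l (p y)) x) (v : E) :
    ∃ p', HD p p' x v := by
  have := h.finite
  let β := Module.finBasis ℝ (CliffordAlgebra Q)
  have := HD.vec (v := v) (fun m => hd (β.coord m)) β
  simp only [Module.Basis.coord_apply, β.sum_repr] at this
  exact ⟨_, this⟩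

theorem IsON.hd_mul (h : IsON Q b) (hp : HD p p' x v) (hq : HD q q' x v) :
    HD (fun y => p y * q y) (p' * q x + p x * q') x v := by
  have := h.finite
  let β := Module.finBasis ℝ (CliffordAlgebra Q)
  intro l
  have e : ∀ z w : CliffordAlgebra Q,
      l (z * w) = ∑ m, β.coord m z * (l ∘ₗ LinearMap.mulLeft ℝ (β m)) w := by
    intro z w
    conv_lhs => rw [← β.sum_repr z, sum_mul, map_sum]
    simp
  simp only [map_add, e]
  have d := fun m => (hp (β.coord m)).1.fun_mul (hq (l ∘ₗ LinearMap.mulLeft ℝ (β m))).1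
  refine ⟨DifferentiableAt.fun_sum fun m _ => d m, ?_⟩
  rw [fderiv_fun_sum fun m _ => d m, _root_.sum_apply, ← sum_add_distrib]
  refine sum_congr rfl fun m _ => ?_
  rw [fderiv_fun_mul (hp (β.coord m)).1 (hq (l ∘ₗ LinearMap.mulLeft ℝ (β m))).1,
    _root_.add_apply, _root_.smul_apply, _root_.smul_apply,
    (hp _).2, (hq _).2, smul_eq_mul, smul_eq_mul]
  ring

theorem IsON.hd_lin (h : IsON Q b) (hp : HD p p' x v) {W : Type*} [NormedAddCommGroup W]
    [NormedSpace ℝ W] (L : CliffordAlgebra Q →ₗ[ℝ] W) :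
    DifferentiableAt ℝ (fun y => L (p y)) x ∧ fderiv ℝ (fun y => L (p y)) x v = L p' := by
  have := h.finite
  let β := Module.finBasis ℝ (CliffordAlgebra Q)
  have e : ∀ z : CliffordAlgebra Q, L z = ∑ m, β.coord m z • L (β m) := by
    intro z
    conv_lhs => rw [← β.sum_repr z, map_sum]
    simp
  simp only [fun y => e (p y), e p']
  have d := fun m => (hp (β.coord m)).1.smul_const (L (β m))
  refine ⟨DifferentiableAt.fun_sum fun m _ => d m, ?_⟩
  rw [fderiv_fun_sum fun m _ => d m, _root_.sum_apply]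
  refine sum_congr rfl fun m _ => ?_
  rw [fderiv_smul_const (hp (β.coord m)).1, ContinuousLinearMap.smulRight_apply, (hp _).2]

/-- The derivative of a lift to the spin group. -/
theorem IsON.spin_hd (h : IsON Q b) {s : E → CliffordAlgebra Q} {s' : CliffordAlgebra Q}
    {O : κ → κ → E → ℝ} (hs : ∀ᶠ y in 𝓝 x, s y ∈ spinGroup Q) (hd : HD s s' x v)
    (hO : ∀ m k, DifferentiableAt ℝ (O m k) x)
    (hA : ∀ᶠ y in 𝓝 x, ∀ k, ι Q (∑ m, O m k y • b m) * s y = s y * ι Q (b k)) :
    s' = s x * lam 1 (fun i => ι Q (b i)) fun k l => ∑ m, fderiv ℝ (O m k) x v * O m l x := by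
  have s0 := hs.self_of_nhds
  have u1 := spinGroup.star_mul_self_of_mem s0
  have u2 := spinGroup.mul_star_self_of_mem s0
  have ho := h.orth s0 hA.self_of_nhds
  set G : κ → κ → ℝ := fun k l => ∑ m, fderiv ℝ (O m k) x v * O m l x with hG
  have sk : ∀ k l, G k l = -G l k := by
    intro k l
    have h1 : fderiv ℝ (fun y => ∑ m, O m k y * O m l y) x v = 0 := by
      have : (fun y => ∑ m, O m k y * O m l y) =ᶠ[𝓝 x] fun _ => if k = l then (1 : ℝ) else 0 := by
        filter_upwards [hs, hA] with y h1 h2 using h.orth h1 h2 k l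
      rw [this.fderiv_eq]; simp
    rw [fderiv_fun_sum fun m _ => (hO m k).fun_mul (hO m l), _root_.sum_apply] at h1
    simp only [fderiv_fun_mul (hO _ k) (hO _ l), _root_.add_apply,
      _root_.smul_apply, smul_eq_mul, sum_add_distrib] at h1
    rw [eq_neg_iff_add_eq_zero, ← h1, add_comm]
    simp only [hG, mul_comm]
  have ev : involute s' = s' := (hd.map involute.toLinearMap).unique hd
    (hs.mono fun y hy => spinGroup.involute_eq hy)
  have st : star s' * s x + star (s x) * s' = 0 :=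
    (h.hd_mul (hd.map (reverse ∘ₗ involute.toLinearMap)) hd).unique (HD.const 1)
      (hs.mono fun y hy => spinGroup.star_mul_self_of_mem hy)
  have cm : ∀ k, (∑ m, fderiv ℝ (O m k) x v • ι Q (b m)) * s x +
      (∑ m, O m k x • ι Q (b m)) * s' = s' * ι Q (b k) := by
    intro k
    have := (h.hd_mul (HD.vec (v := v) (fun m => hO m k) fun m => ι Q (b m)) hd).unique
      (h.hd_mul hd (HD.const (ι Q (b k)))) (hA.mono fun y hy => by simpa using hy k)
    simpa using this
  have a0 : ∀ k, (∑ m, O m k x • ι Q (b m)) * s x = s x * ι Q (b k) := fun k => by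
    simpa using hA.self_of_nhds k
  have a1 : ∀ m, ι Q (b m) * s x = s x * ∑ l, O m l x • ι Q (b l) := by
    intro m
    simp only [mul_sum, mul_smul_comm, ← a0, sum_mul, smul_mul_assoc, smul_sum, smul_smul]
    rw [sum_comm]
    simp [← sum_smul, orth_comm ho]
  have a2 : ∀ k, star (s x) * (∑ m, O m k x • ι Q (b m)) = ι Q (b k) * star (s x) := by
    intro k
    rw [← mul_one (star (s x) * _), ← u2, ← mul_assoc, mul_assoc (star (s x)), a0, ← mul_assoc, u1,
      one_mul]
  have key : star (s x) * s' - lam 1 (fun i => ι Q (b i)) G = 0 := by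
    refine h.eq_zero ?_ (fun k => ?_) ?_
    · rw [map_sub, map_mul, ev, spinGroup.involute_eq (spinGroup.star_mem s0)]
      simp [lam]
    · have h1 := h.rel.lam_gam sk k
      have h2 : star (s x) * s' * ι Q (b k) =
          ∑ l, G k l • ι Q (b l) + ι Q (b k) * (star (s x) * s') := by
        rw [mul_assoc, ← cm, mul_add, ← mul_assoc _ _ s', a2, mul_assoc _ _ s']
        congr 1
        simp only [sum_mul, smul_mul_assoc, a1, mul_sum, mul_smul_comm, ← mul_assoc, u1, one_mul,
          smul_sum, smul_smul, hG, sum_smul]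
        exact sum_comm
      rw [mul_sub, sub_mul, h2, ← h1]
      abel
    · have h1 : star (lam 1 (fun i => ι Q (b i)) G) = -lam 1 (fun i => ι Q (b i)) G := by
        simp only [lam, CliffordAlgebra.star_smul, star_sum, star_mul, star_ι, neg_mul_neg,
          ← smul_neg, ← sum_neg_distrib]
        rw [sum_comm]
        exact congrArg _ (sum_congr rfl fun k _ => sum_congr rfl fun l _ => by
          rw [sk l k, neg_smul, smul_neg])
      rw [star_sub, star_mul, star_star, h1, eq_neg_of_add_eq_zero_left st]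
      abel
  rw [← sub_eq_zero.1 key, ← mul_assoc, u2, one_mul]

/-- The derivative of a lift to the spin group in a representation. -/
theorem IsON.spin_deriv (h : IsON Q b) {s : E → CliffordAlgebra Q} {O : κ → κ → E → ℝ}
    (hs : ∀ᶠ y in 𝓝 x, s y ∈ spinGroup Q)
    (hd : ∀ l : CliffordAlgebra Q →ₗ[ℝ] ℝ, DifferentiableAt ℝ (fun y => l (s y)) x)
    (hO : ∀ m k, DifferentiableAt ℝ (O m k) x)
    (hA : ∀ᶠ y in 𝓝 x, ∀ k, ι Q (∑ m, O m k y • b m) * s y = s y * ι Q (b k))
    {A : Type*} [NormedRing A] [NormedAlgebra ℝ A] (c : CliffordAlgebra Q →ₐ[ℝ] A) :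
    DifferentiableAt ℝ (fun y => c (s y)) x ∧ ∀ v, fderiv ℝ (fun y => c (s y)) x v =
      c (s x) * lam 1 (fun i => c (ι Q (b i))) fun k l => ∑ m, fderiv ℝ (O m k) x v * O m l x := by
  refine ⟨(h.hd_lin (h.exists_hd hd 0).choose_spec c.toLinearMap).1, fun v => ?_⟩
  obtain ⟨s', hs'⟩ := h.exists_hd hd v
  rw [← map_lam, ← map_mul, ← h.spin_hd hs hs' hO hA]
  exact (h.hd_lin hs' c.toLinearMap).2

end Cliff

section Dir

variable {E S ι : Type*} [NormedAddCommGroup E] [NormedSpace ℝ E] [NormedAddCommGroup S]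
  [InnerProductSpace ℝ S] [Fintype ι] [DecidableEq ι] {D D' : Dat E S ι} {O : ι → ι → E → ℝ}
  {a : E → S →L[ℝ] S} {u : E → S} {x : E}

/-- `a` lifts the rotation `O` to the spinors. -/
structure Lift (D D' : Dat E S ι) (O : ι → ι → E → ℝ) (a : E → S →L[ℝ] S) (x : E) : Prop where
  σ : D'.σ = D.σ
  γ : D'.γ = D.γ
  rot : Rot D.e D'.e O x
  d : DifferentiableAt ℝ a x
  conj : ∀ k, a x * D.γ k = (∑ m, O m k x • D.γ m) * a x
  der : ∀ v, fderiv ℝ a x v = a x * lam D.σ D.γ fun k l => ∑ m, fderiv ℝ (O m k) x v * O m l x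

theorem Lift.nab (h : Lift D D' O a x) (f : FrameAt D.e D.c x) (f' : FrameAt D'.e D'.c x)
    (hu : DifferentiableAt ℝ u x) (j : ι) :
    a x (D'.nab j u x) = ∑ i, O i j x • D.nab i (fun y => a y (u y)) x := by
  have h1 : ∀ i, D.nab i (fun y => a y (u y)) x =
      a x (X (D.e i) u x + lam D.σ D.γ (fun k l => cg D.e D.c O i k l x) (u x)) := by
    intro i
    have e1 := lam_conj (σ := D.σ) h.rot.orth.self_of_nhds h.conj fun k l => chr D.c i k l x
    have e2 := congrArg (fun T : S →L[ℝ] S => T (u x)) e1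
    simp only [mul_apply_eq_comp] at e2
    rw [Dat.nab, X_clm h.d hu, Dat.con, e2]
    simp only [cg, lam_add, X, h.der, mul_apply_eq_comp, map_add,
      _root_.add_apply]
    abel
  simp only [h1, ← map_smul, ← map_sum, smul_add, sum_add_distrib]
  rw [Dat.nab, h.rot.X, Dat.con, h.σ, h.γ]
  simp only [h.rot.chr f f', lam_sum, lam_smul, _root_.sum_apply,
    _root_.smul_apply, map_smul]

/-- Gauge covariance of the Dirac operator. -/
theorem Lift.dir (h : Lift D D' O a x) (f : FrameAt D.e D.c x) (f' : FrameAt D'.e D'.c x)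
    (hu : DifferentiableAt ℝ u x) : D.dir (fun y => a y (u y)) x = a x (D'.dir u x) := by
  have o2 := orth_comm h.rot.orth.self_of_nhds
  have h1 : ∀ j w, a x (D.γ j w) = ∑ m, O m j x • D.γ m (a x w) := fun j w => by
    simpa using congrArg (fun T : S →L[ℝ] S => T w) (h.conj j)
  simp only [Dat.dir, map_sum, h.γ, h1, h.nab f f' hu, map_smul, smul_sum, smul_smul]
  rw [sum_comm]
  refine sum_congr rfl fun m _ => ?_
  rw [sum_comm]
  simp [← sum_smul, o2]

end Dir

end Pool.Agent.Lib.SMG
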